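import Mathlib
import Pool.Agent.Run7.h854.PO.All

set_option autoImplicit false

/-!
# Generalized Wagstaff numbers: the Poisson law for the exponents in thin sets of primes

For an integer `b ≥ 2`, a real `β > 0` and a prime `p` let `W b β p` be the `p`-rough part (the
product, with multiplicity, of the prime factors larger than `p`) of `⌈β b ^ p⌉`.  For
`β = 1 / (b + 1)` this is the number `(b ^ p + 1) / (b + 1)` of the question, for every odd prime `p`
that does not divide `b + 1`.  The exponents of `β` are the primes `p` with `W b β p` prime.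

According to the Poisson model behind the conjecture the number of exponents in a set `T` of primes is
distributed like a Poisson variable with the expectation `κ b * ∑ p ∈ T, log p / p`,
`κ b = e ^ γ / log b`, and these numbers are independent for disjoint sets.  We prove this as a limit
theorem, for a random amplitude `β` (uniform in an arbitrary interval), for all sequences of families
of disjoint finite sets of primes whose union is thin: the weight `∑ log p / p` of its part in
`(x, 2 x]` tends to zero uniformly in `x`, and for every `h` so does the weight of the `p` for which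
`p + h` is in the union, too.  (For example every `m_n`-th prime in a window, `m_n → ∞`.)

The proof is that of `Pool/Agent/Results/MP_adea1b_nt/PoissonLaw.lean`, which is the pair `(b, 1)` in
the place of `(b, -1)`; see there and `Pool/Agent/Run7/h854/PO`.
-/

namespace Pool.Agent.Results.MP_ce8d0c_nt.PoissonLaw

open Filter Topology MeasureTheory

/-- The product, with multiplicity, of the prime factors of `m` that are larger than `p`. -/
def roughPart (p m : ℕ) : ℕ := (m.primeFactorsList.filter (fun r => p < r)).prod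

/-- The `p`-rough part of `⌈β b ^ p⌉`. -/
noncomputable def W (b : ℕ) (β : ℝ) (p : ℕ) : ℕ := roughPart p ⌈β * (b : ℝ) ^ p⌉₊

/-- The number of the elements `p` of `T` for which `W b β p` is prime. -/
noncomputable def N (b : ℕ) (β : ℝ) (T : Finset ℕ) : ℕ := (T.filter (fun p => (W b β p).Prime)).card

/-- The weight of a finite set. -/
noncomputable def V (T : Finset ℕ) : ℝ := ∑ p ∈ T, Real.log p / p

/-- The union of a finite family of finite sets. -/
def U {r : ℕ} (T : Fin r → Finset ℕ) : Finset ℕ := Finset.univ.biUnion T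

/-- The constant `e ^ γ / log b`. -/
noncomputable def κ (b : ℕ) : ℝ := Real.exp Real.eulerMascheroniConstant / Real.log b

/-- The families `T n` consist of disjoint finite sets of primes; the elements of the union of `T n`
tend to infinity with `n`, and the union is thin: its weight in the intervals `(x, 2 x]` tends to zero
uniformly in `x`, and for every `h ≥ 1` the weight of the `p` in the union with `p + h` in the union
tends to zero. -/
structure Thin {r : ℕ} (T : ℕ → Fin r → Finset ℕ) : Prop where
  prime : ∀ n s, ∀ p ∈ T n s, p.Prime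
  disjoint : ∀ n s s', s ≠ s' → Disjoint (T n s) (T n s')
  large : ∀ M : ℕ, ∀ᶠ n in atTop, ∀ p ∈ U (T n), M < p
  thin : ∀ δ : ℝ, 0 < δ → ∀ᶠ n in atTop, ∀ x : ℕ, V ((U (T n)).filter (fun p => x < p ∧ p ≤ 2 * x)) ≤ δ
  pairs : ∀ h : ℕ, 1 ≤ h →
    Tendsto (fun n => V ((U (T n)).filter (fun p => p + h ∈ U (T n)))) atTop (𝓝 0)

/-- the special values -/
lemma special {b : ℕ} (hb : 2 ≤ b) {p : ℕ} (hp : p.Prime) (hp2 : p ≠ 2) (hpb : ¬ p ∣ b + 1) :
    W b (1 / ((b : ℝ) + 1)) p * (b + 1) = b ^ p + 1 := by
  have hb1 : (2 : ℝ) ≤ b := by exact_mod_cast hb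
  have hodd : Odd p := hp.odd_of_ne_two hp2
  have h1 := Pool.Agent.N176.SH.spe (a := b) (b := -1) (by rw [abs_neg, abs_one]; exact_mod_cast hb)
    (IsCoprime.neg_right isCoprime_one_right) hp (by
      intro h
      apply hpb
      have h2 : ((b + 1 : ℕ) : ℤ) = (b : ℤ) - -1 := by omega
      rw [← h2] at h
      exact_mod_cast h)
  rw [show (1 / ((b : ℝ) - ((-1 : ℤ) : ℝ))) = 1 / ((b : ℝ) + 1) by push_cast; ring,
    Run7.h854.PO.WW_neg_one hb (by positivity) hodd, hodd.neg_one_pow] at h1
  have h2 : ((W b (1 / ((b : ℝ) + 1)) p : ℕ) : ℤ) * ((b : ℤ) - -1) = (b : ℤ) ^ p - -1 := h1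
  have h3 : ((W b (1 / ((b : ℝ) + 1)) p : ℕ) : ℤ) * ((b : ℤ) + 1) = (b : ℤ) ^ p + 1 := by
    linarith
  exact_mod_cast h3

/-- The special value; the joint Poisson law for the numbers of exponents in thin families of disjoint
sets of primes, in every base. -/
theorem result :
    (∀ b : ℕ, 2 ≤ b → ∀ p : ℕ, p.Prime → p ≠ 2 → ¬ p ∣ b + 1 →
      W b (1 / ((b : ℝ) + 1)) p * (b + 1) = b ^ p + 1) ∧
    (∀ b : ℕ, 2 ≤ b → ∀ (r : ℕ) (T : ℕ → Fin r → Finset ℕ) (lam : Fin r → ℝ), Thin T →
      (∀ s, Tendsto (fun n => κ b * V (T n s)) atTop (𝓝 (lam s))) →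
      ∀ u v : ℝ, 0 ≤ u → u < v → ∀ k : Fin r → ℕ,
      Tendsto (fun n => volume {β : ℝ | u < β ∧ β ≤ v ∧ ∀ s, N b β (T n s) = k s}) atTop
        (𝓝 (ENNReal.ofReal
          ((v - u) * ∏ s, (Real.exp (-lam s) * lam s ^ k s / (k s).factorial))))) := by
  refine ⟨fun b hb p hp hp2 hpb => special hb hp hp2 hpb, ?_⟩
  intro b hb r T lam hT hlam u v hu huv k
  have hT' : Run7.h854.PO.Thin (Pool.Agent.N176.OW.kap b) T lam :=
    { disj := fun n s s' h => hT.disjoint n s s' h
      min := hT.large
      thin := hT.thin
      pair := hT.pairs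
      mass := hlam }
  refine Run7.h854.PO.to_ennreal (u := u) (v := v) (fun n β h => ⟨h.1, h.2.1⟩) ?_
  exact Run7.h854.PO.poisson_one hb hT' hu huv k

end Pool.Agent.Results.MP_ce8d0c_nt.PoissonLaw
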