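import Mathlib
import Pool.Agent.Run7.h854.PQ.All

set_option autoImplicit false

/-!
# The numbers `(b ^ p + 1) / (b + 1)`: Poissonian statistics of the exponents, for almost every
amplitude

For an integer `b ≥ 2`, a real `β > 0` and a prime `p` let `W b β p` be the `p`-rough part (the
product, with multiplicity, of the prime factors larger than `p`) of `⌈β * b ^ p⌉`.  For
`β = 1 / (b + 1)` this is the number `(b ^ p + 1) / (b + 1)` of the question, for every odd prime `p`
that does not divide `b + 1`.  The exponents of `β` in base `b` are the primes `p` with `W b β p`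
prime.

According to the Poisson model behind the conjecture (the events that the different primes `p` are
exponents are independent and have the probabilities `κ b * log p / p`,
`κ b = e ^ γ / log b`) the exponents in a set `S` of primes should look like the points of
a Poisson process of intensity one in the time scale in which the prime `p` has the time
`κ b * V S p`, `V S n` being the sum of `log p / p` over the `p ≤ n` in `S`.  The companion file
`PoissonLaw` of this page proves this for a random amplitude `β`, as a limit theorem for finite sets.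
Here we prove it for **almost every individual amplitude** `β`: for every set `S` of primes that is thin
the exponents of almost every `β` in `S` have Poissonian statistics of all orders.  That is, if `y` is
random, uniform in `(0, X]`, then the numbers of the exponents in the windows
`(y + α s, y + α' s]` (in the time scale), for any finite number of disjoint windows, are asymptotically
independent Poisson variables with the expectations `α' s - α s`, as `X` tends to infinity
(for almost every `β`, in all bases at once).  (For example one window and `k = 0` is the law of the gaps.)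

The set `S` is thin (`Thin S`) if its weight `V S` is infinite, the weight of its part in `(x, 2 x]`
tends to zero, and for every `h ≥ 1` the `p` in `S` with `p + h` in `S` have a negligible part of the
weight; for example every `m_i`-th prime in `(2 ^ i, 2 ^ (i + 1)]`, where `m_i` tends slowly to
infinity.  (For the set of all primes nothing is known on the correlations of exponents
`p < q` with `q / p` close to one, only upper bounds.)

Proof.  The windows of a grid in the time scale, with free time between them, are treated as blocks
of digits.  Given the first digits of `β` (up to the end of the preceding window) the Laplace functional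
of a window is that of a Poisson process, up to an error whose mean over all beginnings is controlled by
the starting theorem on primes in almost all short intervals (`Pool.Agent.N176.OW.All.fm`) and by upper
bound sieves valid for **every** beginning (`Run7/h854/PO`, `N176/SH`).  The differences are orthogonal,
the Borel-Cantelli lemma gives the convergence of the means over the grid for almost every `β`, and the
continuity theorem for generating functions, applied to the empirical measures, gives the frequencies
(`Run7/h854/PQ`).
-/

namespace Pool.Agent.Results.MP_ce8d0c_nt.PoissonStatistics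

open Filter Topology MeasureTheory

/-- The product, with multiplicity, of the prime factors of `m` that are larger than `p`. -/
def roughPart (p m : ℕ) : ℕ := (m.primeFactorsList.filter (fun r => p < r)).prod

/-- The `p`-rough part of `⌈β b ^ p⌉`. -/
noncomputable def W (b : ℕ) (β : ℝ) (p : ℕ) : ℕ := roughPart p ⌈β * (b : ℝ) ^ p⌉₊

/-- The weight `∑ log p / p` of the elements `p ≤ n` of `S`. -/
noncomputable def V (S : Set ℕ) (n : ℕ) : ℝ :=
  ∑ p ∈ Finset.range (n + 1), S.indicator (fun p : ℕ => Real.log p / (p : ℝ)) p

/-- The constant `e ^ γ / log b`. -/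
noncomputable def κ (b : ℕ) : ℝ := Real.exp Real.eulerMascheroniConstant / Real.log b

/-- `S` is a set of primes of infinite weight, the weight of its part in `(n, 2 n]` tends to
zero, and for every `h ≥ 1` the `p` in `S` with `p + h` in `S` have a negligible part of the weight. -/
structure Thin (S : Set ℕ) : Prop where
  prime : ∀ p ∈ S, p.Prime
  infinite : Tendsto (V S) atTop atTop
  thin : Tendsto (fun n => V S (2 * n) - V S n) atTop (𝓝 0)
  pairs : ∀ h : ℕ, 1 ≤ h → Tendsto (fun n => V {p | p ∈ S ∧ p + h ∈ S} n / V S n) atTop (𝓝 0)

/-- The number of the exponents `p` of `β` in `S` with the times `κ b * V S p` in `(x, y]`. -/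
noncomputable def N (b : ℕ) (S : Set ℕ) (β x y : ℝ) : ℕ :=
  {p : ℕ | p ∈ S ∧ x < κ b * V S p ∧ κ b * V S p ≤ y ∧ (W b β p).Prime}.ncard

/-- the special values -/
lemma special {b : ℕ} (hb : 2 ≤ b) {p : ℕ} (hp : p.Prime) (hp2 : p ≠ 2) (hpb : ¬ p ∣ b + 1) :
    W b (1 / ((b : ℝ) + 1)) p * (b + 1) = b ^ p + 1 := by
  have hb1 : (2 : ℝ) ≤ b := by exact_mod_cast hb
  have hodd : Odd p := hp.odd_of_ne_two hp2
  have h1 := Pool.Agent.N176.SH.spe (a := b) (b := -1) (by rw [abs_neg, abs_one]; exact_mod_cast hb)
    (IsCoprime.neg_right isCoprime_one_right) hp (by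
      intro h
      apply hpb
      have h2 : ((b + 1 : ℕ) : ℤ) = (b : ℤ) - -1 := by omega
      rw [← h2] at h
      exact_mod_cast h)
  rw [show (1 / ((b : ℝ) - ((-1 : ℤ) : ℝ))) = 1 / ((b : ℝ) + 1) by push_cast; ring,
    Run7.h854.PO.WW_neg_one hb (by positivity) hodd, hodd.neg_one_pow] at h1
  have h2 : ((W b (1 / ((b : ℝ) + 1)) p : ℕ) : ℤ) * ((b : ℤ) - -1) = (b : ℤ) ^ p - -1 := h1
  have h3 : ((W b (1 / ((b : ℝ) + 1)) p : ℕ) : ℤ) * ((b : ℤ) + 1) = (b : ℤ) ^ p + 1 := by
    linarith
  exact_mod_cast h3

lemma V_eq : V = Run7.h854.PQ.V := by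
  funext S n
  rw [Run7.h854.PQ.V_eq]
  rfl

/-- The special value; for almost every `β`, in all bases, the exponents in a thin set of primes have
Poissonian statistics. -/
theorem result :
    (∀ b : ℕ, 2 ≤ b → ∀ p : ℕ, p.Prime → p ≠ 2 → ¬ p ∣ b + 1 →
      W b (1 / ((b : ℝ) + 1)) p * (b + 1) = b ^ p + 1) ∧
    (∀ S : Set ℕ, Thin S → ∀ᵐ β : ℝ, 0 < β → ∀ b : ℕ, 2 ≤ b →
      ∀ (r : ℕ) (α α' : Fin r → ℝ) (k : Fin r → ℕ), (∀ s, 0 ≤ α s ∧ α s ≤ α' s) →
      (∀ s s', s ≠ s' → α' s ≤ α s' ∨ α' s' ≤ α s) →
      Tendsto (fun X : ℝ => (volume {y : ℝ | 0 < y ∧ y ≤ X ∧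
        ∀ s, N b S β (y + α s) (y + α' s) = k s}).toReal / X) atTop
        (𝓝 (∏ s, (Real.exp (-(α' s - α s)) * (α' s - α s) ^ k s / (k s).factorial)))) := by
  refine ⟨fun b hb p hp hp2 hpb => special hb hp hp2 hpb, ?_⟩
  intro S hS
  have hS' : Run7.h854.PQ.IsThin S :=
    { inf := V_eq ▸ hS.infinite
      thin := V_eq ▸ hS.thin
      pairs := V_eq ▸ hS.pairs }
  have h1 : ∀ᵐ β : ℝ, ∀ b : ℕ, 2 ≤ b → 0 < β →
      ∀ (r : ℕ) (α α' : Fin r → ℝ) (k : Fin r → ℕ), (∀ s, 0 ≤ α s ∧ α s ≤ α' s) →
      (∀ s s', s ≠ s' → α' s ≤ α s' ∨ α' s' ≤ α s) →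
      Tendsto (fun X : ℝ => (volume {y : ℝ | 0 < y ∧ y ≤ X ∧
        ∀ s, N b S β (y + α s) (y + α' s) = k s}).toReal / X) atTop
        (𝓝 (∏ s, (Real.exp (-(α' s - α s)) * (α' s - α s) ^ k s / (k s).factorial))) := by
    rw [ae_all_iff]
    intro b
    by_cases hb : 2 ≤ b
    · filter_upwards [Run7.h854.PQ.stat_one hb hS'] with β hβ _ hβ0 r α α' k h0 hd
      have h2 := hβ hβ0 r α α' k h0 hd
      unfold N
      rw [V_eq]
      exact h2
    · exact Eventually.of_forall fun β h => absurd h hb
  filter_upwards [h1] with β hβ hβ0 b hb
  exact hβ b hb hβ0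

end Pool.Agent.Results.MP_ce8d0c_nt.PoissonStatistics
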