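import Pool.Agent.Run7.h370.Int2
import Pool.Agent.Run7.h370.AsymU

/-!
# Sparse multiples of divisors of generalised Wagstaff numbers

Let `b ≥ 2` be a base that does not admit an algebraic factorization, `p` an odd prime and
`Q(b,p) = (b ^ p + 1) / (b + 1)`.  Let `N = ∑_{i ∈ S} u_i b ^ i` with `|S| = s` and arbitrary integers `u_i`.  If
`b ^ p + 1` does not divide `N` then, for every `t ≥ 1` with `t ^ (s - 1) < p`,
`gcd (b ^ p + 1, N) ≤ (∑ |u_i|) ^ (t ^ (s - 1)) b ^ (2 (p / t))`.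
So for every `δ > 0` there is `c > 0`, independent of `b`, such that all the multiples of a divisor `d ≥ b ^ (δ p)` of
`Q(b,p)`, other than the multiples of `b ^ p + 1`, have at least `c log (p / 2)` nonzero digits in base `b`, and these digits
are not contained in fewer than `c log (p / (ℓ + 1))` intervals of length `ℓ`.  This applies to all the proper divisors
`d` of `Q(b,p)` with `d ^ 2 ≥ Q(b,p)`.  For the excluded bases this is false: if `b = a ^ m` with `m ≥ 3` odd then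
`a ^ p + 1` divides `b ^ p + 1`, and for `b = 4 k ^ 4` the two factors of the Aurifeuillean factorization are sparse.

Proof (`Pool/Agent/Run7/h370`).  Take `q ≤ t ^ (s - 1)` such that all `q (i - i_0)` are close to multiples of `p`.  Modulo
`b ^ p + 1` the number `-b` has order `p`, hence a `q`-th root `y` among its powers; so `N / b ^ (i_0)` is the value at `y`
of a Laurent polynomial with small exponents.  The polynomial `X ^ q + b` is irreducible for all `q`, exactly because the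
base does not admit an algebraic factorization; so either the Laurent polynomial vanishes modulo this binomial, and then
`b ^ p + 1` divides `N`, or their resultant is a nonzero integer which is a multiple of the greatest common divisor.
-/

set_option autoImplicit false

namespace Pool.Agent.Results.MP_ce8d0c_nt.SparseMultiples

open Run7.h370

/-- The base `b` admits an algebraic factorization: `b = a ^ m` with `m ≥ 3` odd, or `b = 4 k ^ 4`. -/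
def Algebraic (b : ℕ) : Prop := (∃ a m : ℕ, 2 ≤ a ∧ Odd m ∧ 3 ≤ m ∧ b = a ^ m) ∨ ∃ k : ℕ, b = 4 * k ^ 4

/-- `Q(b,n) = (b ^ n + 1) / (b + 1)`. -/
def Q (b n : ℕ) : ℕ := (b ^ n + 1) / (b + 1)

/-- **Sparse multiples of divisors of generalised Wagstaff numbers.** -/
theorem result :
    -- arbitrary coefficients
    (∀ b : ℕ, 2 ≤ b → ¬ Algebraic b → ∀ p : ℕ, p.Prime → p ≠ 2 →
      ∀ (S : Finset ℕ) (u : ℕ → ℤ) (t : ℕ), 0 < t → t ^ (S.card - 1) < p →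
      ¬ (b : ℤ) ^ p + 1 ∣ ∑ i ∈ S, u i * (b : ℤ) ^ i →
      (Int.gcd ((b : ℤ) ^ p + 1) (∑ i ∈ S, u i * (b : ℤ) ^ i) : ℤ) ≤
        (∑ i ∈ S, |u i|) ^ (t ^ (S.card - 1)) * (b : ℤ) ^ (2 * (p / t))) ∧
    -- large divisors have no sparse multiples
    (∀ δ : ℝ, 0 < δ → ∃ c : ℝ, 0 < c ∧ ∀ b : ℕ, 2 ≤ b → ¬ Algebraic b → ∀ p : ℕ, p.Prime → p ≠ 2 →
      ∀ (S : Finset ℕ) (u : ℕ → ℤ) (ℓ : ℕ),
      (∀ i ∈ S, |u i| ≤ (b : ℤ) ^ ℓ) → ¬ (b : ℤ) ^ p + 1 ∣ ∑ i ∈ S, u i * (b : ℤ) ^ i →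
      (b : ℝ) ^ (δ * p) ≤ (Int.gcd ((b : ℤ) ^ p + 1) (∑ i ∈ S, u i * (b : ℤ) ^ i) : ℝ) →
      c * Real.log (p / (ℓ + 1)) ≤ S.card) ∧
    -- the large proper divisors
    (∃ c : ℝ, 0 < c ∧ ∀ b : ℕ, 2 ≤ b → ¬ Algebraic b → ∀ p : ℕ, p.Prime → p ≠ 2 →
      ∀ d : ℕ, d ∣ Q b p → d < Q b p → Q b p ≤ d ^ 2 → ∀ (S : Finset ℕ) (u : ℕ → ℤ) (ℓ : ℕ),
      (∀ i ∈ S, |u i| ≤ (b : ℤ) ^ ℓ) → (d : ℤ) = ∑ i ∈ S, u i * (b : ℤ) ^ i →
      c * Real.log (p / (ℓ + 1)) ≤ S.card) := by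
  have hA : ∀ b : ℕ, 2 ≤ b → ¬ Algebraic b → ∀ p : ℕ, p.Prime → p ≠ 2 →
      ∀ (S : Finset ℕ) (u : ℕ → ℤ) (t : ℕ), 0 < t → t ^ (S.card - 1) < p →
      ¬ (b : ℤ) ^ p + 1 ∣ ∑ i ∈ S, u i * (b : ℤ) ^ i →
      (Int.gcd ((b : ℤ) ^ p + 1) (∑ i ∈ S, u i * (b : ℤ) ^ i) : ℤ) ≤
        (∑ i ∈ S, |u i|) ^ (t ^ (S.card - 1)) * (b : ℤ) ^ (2 * (p / t)) := by
    intro b hb hal p hp hp2 S u t ht hts hnd
    exact gcdWag b hb (fun a m ha hm hm3 h => hal (Or.inl ⟨a, m, ha, hm, hm3, h⟩))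
      (fun k h => hal (Or.inr ⟨k, h⟩)) p hp hp2 S u t ht hts hnd
  have hC : ∀ δ : ℝ, 0 < δ → ∃ c : ℝ, 0 < c ∧ ∀ b : ℕ, 2 ≤ b → ¬ Algebraic b →
      ∀ p : ℕ, p.Prime → p ≠ 2 → ∀ (S : Finset ℕ) (u : ℕ → ℤ) (ℓ : ℕ),
      (∀ i ∈ S, |u i| ≤ (b : ℤ) ^ ℓ) → ¬ (b : ℤ) ^ p + 1 ∣ ∑ i ∈ S, u i * (b : ℤ) ^ i →
      (b : ℝ) ^ (δ * p) ≤ (Int.gcd ((b : ℤ) ^ p + 1) (∑ i ∈ S, u i * (b : ℤ) ^ i) : ℝ) →
      c * Real.log (p / (ℓ + 1)) ≤ S.card := by
    intro δ hδ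
    obtain ⟨c, hc0, hc⟩ := asymGcdU δ hδ
    exact ⟨c, hc0, fun b hb hal p hp hp2 S u ℓ hu hnd hbig =>
      hc b hb p ((b : ℤ) ^ p + 1) hp.pos S u ℓ hu hnd hbig
        (fun t ht hts => hA b hb hal p hp hp2 S u t ht hts hnd)⟩
  refine ⟨hA, hC, ?_⟩
  obtain ⟨c, hc0, hc⟩ := hC (1 / 6) (by norm_num)
  refine ⟨c, hc0, fun b hb hal p hp hp2 d hd hd1 hd2 S u ℓ hu hdS => ?_⟩
  have hp3 : 3 ≤ p := by
    have := hp.two_le
    omega
  have hodd := hp.odd_of_ne_two hp2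
  have hdiv : b + 1 ∣ b ^ p + 1 := by
    have := Odd.nat_add_dvd_pow_add_pow b 1 hodd
    rwa [one_pow] at this
  have hQ : Q b p * (b + 1) = b ^ p + 1 := Nat.div_mul_cancel hdiv
  have hQ1 : Q b p ∣ b ^ p + 1 := ⟨b + 1, hQ.symm⟩
  have hd0 : 0 < d := by
    rcases Nat.eq_zero_or_pos d with h | h
    · subst h
      have h1 : Q b p = 0 := by simpa using hd2
      rw [h1] at hd1
      omega
    · exact h
  refine hc b hb hal p hp hp2 S u ℓ hu (by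
    rw [← hdS]
    intro h
    have h1 : b ^ p + 1 ∣ d := by exact_mod_cast h
    have h2 := Nat.le_of_dvd hd0 h1
    have h3 := Nat.le_of_dvd (by positivity) hQ1
    omega) ?_
  rw [← hdS]
  have h1 : (Int.gcd ((b : ℤ) ^ p + 1) (d : ℤ) : ℝ) = (d : ℝ) := by
    have h2 : ((b : ℤ) ^ p + 1) = ((b ^ p + 1 : ℕ) : ℤ) := by push_cast; ring
    rw [h2, Int.gcd_natCast_natCast, Nat.gcd_eq_right (hd.trans hQ1)]
  rw [h1]
  have h3 : ((b : ℝ) ^ ((1 / 6 : ℝ) * p)) ^ 2 ≤ (d : ℝ) ^ 2 := by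
    have hb0 : (0 : ℝ) ≤ b := by positivity
    have hb1 : (1 : ℝ) ≤ b := by exact_mod_cast (by omega : 1 ≤ b)
    rw [← Real.rpow_natCast, ← Real.rpow_mul hb0]
    have e : (1 / 6 : ℝ) * p * ((2 : ℕ) : ℝ) ≤ ((p - 2 : ℕ) : ℝ) := by
      rw [Nat.cast_sub hp.two_le]
      have : (3 : ℝ) ≤ p := by exact_mod_cast hp3
      push_cast
      linarith
    refine (Real.rpow_le_rpow_of_exponent_le hb1 e).trans ?_
    rw [Real.rpow_natCast]
    have h4 : b ^ (p - 2) ≤ d ^ 2 := by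
      refine le_trans ?_ hd2
      have h5 : b ^ p = b ^ (p - 2) * b ^ 2 := by
        rw [← pow_add]
        congr 1
        omega
      have h6 : b + 1 ≤ b ^ 2 := by nlinarith
      have h7 : b ^ (p - 2) * (b + 1) ≤ Q b p * (b + 1) := by
        rw [hQ, h5]
        have := Nat.mul_le_mul_left (b ^ (p - 2)) h6
        omega
      exact Nat.le_of_mul_le_mul_right h7 (by omega)
    exact_mod_cast h4
  exact (pow_le_pow_iff_left₀ (by positivity) (by positivity) two_ne_zero).1 h3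

end Pool.Agent.Results.MP_ce8d0c_nt.SparseMultiples
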