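import Mathlib
import Pool.Agent.N176.SH.All
import Pool.Agent.N372.SH.OKP
import Pool.Agent.H447R2.ML.Spec
import Pool.Agent.H473R4.Count

set_option autoImplicit false

/-!
# Generalized Wagstaff numbers: windows of any length, all bases at once

For an integer `b ≥ 2`, a real `β > 0` and a prime `p` let `W b β p` be the `p`-rough part (the
product, with multiplicity, of the prime factors larger than `p`) of `⌈β b ^ p⌉`.  For
`β = 1 / (b + 1)` this is the number `(b ^ p + 1) / (b + 1)` of the question, for every odd prime `p`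
that does not divide `b + 1`.

According to the Poisson model behind the conjecture the exponents `p` with `W b β p` prime form, on
the scale `log p`, a Poisson process of intensity `κ b = e ^ γ / log b`, for a general `β`.  For such a
process the number of points in `(log n, log n']` differs from its mean `κ b * log (n' / n)` by
`O (sqrt (log (n' / n) log log n') + log log n')`, for all windows at once, and for the windows
starting at the origin by `O (sqrt (log n log log log n))` (law of the iterated logarithm).  We prove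
these bounds for almost every `β > 0`, in all bases `b ≥ 2` at once, for all windows `(n, n']` at
once, of whatever length, and for the whole counting function; and the same for the exponents in an
arbitrary set `S` of primes of infinite weight `∑ log p / p`.

This is the pair `(b, -1)` in the family of the pairs `(a, b)` of the file
`MP_de9007_nt/WindowsForAllPairs.lean`, where `|b| ≥ 2`; the pair `(b, 1)` is in
`MP_adea1b_nt/WindowsInEveryBase.lean`.  The bounds for shifted digits used below (all files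
`Pool/Agent/**/SH/*.lean`) are by helpers 176, 441, 34, 286, 833, 897, 933, 607, 372, 614 and 835 of
an earlier run and the authors of the unshifted case.
-/

namespace Pool.Agent.Results.MP_ce8d0c_nt.WindowsEveryBase

open Filter Topology MeasureTheory

/-- The product, with multiplicity, of the prime factors of `m` that are larger than `p`. -/
def roughPart (p m : ℕ) : ℕ := (m.primeFactorsList.filter (fun r => p < r)).prod

/-- The `p`-rough part of `⌈β b ^ p⌉`. -/
noncomputable def W (b : ℕ) (β : ℝ) (p : ℕ) : ℕ := roughPart p ⌈β * (b : ℝ) ^ p⌉₊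

open Classical in
/-- The number of primes `p ≤ n` in the set `S` for which `W b β p` is prime. -/
noncomputable def M (b : ℕ) (S : Set ℕ) (β : ℝ) (n : ℕ) : ℕ :=
  ((Finset.range (n + 1)).filter (fun p => p.Prime ∧ p ∈ S ∧ (W b β p).Prime)).card

open Classical in
/-- The number of odd `m ≤ n` in the set `S` for which `(b ^ m + 1) / (b + 1)` is prime. -/
noncomputable def count (b : ℕ) (S : Set ℕ) (n : ℕ) : ℕ :=
  ((Finset.range (n + 1)).filter (fun m => Odd m ∧ m ∈ S ∧ ((b ^ m + 1) / (b + 1)).Prime)).card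

open Classical in
/-- The sum of `log p / p` over the primes `p ≤ n` in the set `S`. -/
noncomputable def V (S : Set ℕ) (n : ℕ) : ℝ :=
  ∑ p ∈ (Finset.range (n + 1)).filter (fun p => p.Prime ∧ p ∈ S), Real.log p / p

/-- The constant of the law, `e ^ γ / log b`. -/
noncomputable def κ (b : ℕ) : ℝ := Real.exp Real.eulerMascheroniConstant / Real.log b

/-- the special values -/
lemma special {b : ℕ} (hb : 2 ≤ b) {p : ℕ} (hp : p.Prime) (hp2 : p ≠ 2) (hpd : ¬ p ∣ b + 1) :
    W b (1 / ((b : ℝ) + 1)) p * (b + 1) = b ^ p + 1 := by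
  have hodd : Odd p := hp.odd_of_ne_two hp2
  obtain ⟨N, hM⟩ : b + 1 ∣ b ^ p + 1 := by
    have := hodd.nat_add_dvd_pow_add_pow b 1
    rwa [one_pow] at this
  have hMr : ((N : ℝ)) * (b + 1) = (b : ℝ) ^ p + 1 := by
    have : ((b : ℝ) ^ p + 1) = (((b ^ p + 1 : ℕ)) : ℝ) := by push_cast; ring
    rw [this, hM]
    push_cast; ring
  have hb0 : (0 : ℝ) < (b : ℝ) + 1 := by positivity
  have hb2 : (2 : ℝ) ≤ b := by exact_mod_cast hb
  have hM0 : N ≠ 0 := by
    rintro rfl
    simp at hM
  have hfl : ⌈1 / ((b : ℝ) + 1) * (b : ℝ) ^ p⌉₊ = N := by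
    rw [Nat.ceil_eq_iff hM0]
    have e : 1 / ((b : ℝ) + 1) * (b : ℝ) ^ p = N - 1 / ((b : ℝ) + 1) := by
      field_simp
      linarith
    have h1 : 1 / ((b : ℝ) + 1) < 1 := by
      rw [div_lt_one hb0]; linarith
    have h2 : 0 < 1 / ((b : ℝ) + 1) := by positivity
    have h3 : ((N - 1 : ℕ) : ℝ) = (N : ℝ) - 1 := by
      rw [Nat.cast_sub (Nat.one_le_iff_ne_zero.2 hM0), Nat.cast_one]
    rw [e, h3]
    constructor <;> linarith
  have hr := Pool.Agent.H447R2.ML.rough_quot (a := (b : ℤ)) (b := -1)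
    (IsCoprime.neg_right isCoprime_one_right) (by omega) (by omega) hp
    (by
      intro h
      apply hpd
      have : ((p : ℕ) : ℤ) ∣ ((b + 1 : ℕ) : ℤ) := by push_cast; simpa using h
      exact_mod_cast this) (x := (N : ℝ)) (by
        push_cast
        rw [hodd.neg_one_pow]
        have hne : (b : ℝ) - -1 ≠ 0 := by linarith
        field_simp
        linarith)
  rw [Nat.floor_natCast] at hr
  have hgeom : (∑ i ∈ Finset.range p, (b : ℤ) ^ i * (-1) ^ (p - 1 - i)) * ((b : ℤ) - -1) =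
      (b : ℤ) ^ p - (-1) ^ p := (Commute.all (b : ℤ) (-1)).geom_sum₂_mul p
  rw [← hr, hodd.neg_one_pow] at hgeom
  unfold W
  rw [hfl]
  have h4 : ((roughPart p N : ℕ) : ℤ) * ((b : ℤ) + 1) = (b : ℤ) ^ p + 1 := by
    have h5 : (roughPart p N : ℤ) = (Pool.Agent.H305R2.roughPart p N : ℤ) := rfl
    rw [h5]
    linarith
  exact_mod_cast h4

lemma card_le_of_eventually {s t : ℕ → Prop} [DecidablePred s] [DecidablePred t] (D : ℕ)
    (h : ∀ p, D < p → s p → t p) (n : ℕ) :
    (((Finset.range (n + 1)).filter s).card : ℝ) ≤ (((Finset.range (n + 1)).filter t).card : ℝ) +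
      (D + 1 : ℕ) := by
  have h1 : (Finset.range (n + 1)).filter s ⊆ (Finset.range (n + 1)).filter t ∪ Finset.range (D + 1) := by
    intro p hp
    rw [Finset.mem_filter] at hp
    rw [Finset.mem_union, Finset.mem_filter]
    by_cases hD : D < p
    · exact Or.inl ⟨hp.1, h p hD hp.2⟩
    · exact Or.inr (Finset.mem_range.2 (by omega))
  have h2 := (Finset.card_le_card h1).trans (Finset.card_union_le _ _)
  rw [Finset.card_range] at h2
  exact_mod_cast h2

/-- the two counting functions differ by a bounded amount -/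
lemma count_close {b : ℕ} (hb : 2 ≤ b) (S : Set ℕ) (n : ℕ) :
    |(M b S (1 / ((b : ℝ) + 1)) n : ℝ) - count b S n| ≤ (b : ℝ) + 2 := by
  classical
  have key : ∀ p : ℕ, b + 1 < p → p.Prime →
      ((W b (1 / ((b : ℝ) + 1)) p).Prime ↔ ((b ^ p + 1) / (b + 1)).Prime) := by
    intro p hD hp
    have hp2 : p ≠ 2 := by omega
    have hpd : ¬ p ∣ b + 1 := fun h => by
      have := Nat.le_of_dvd (by omega) h
      omega
    rw [← special hb hp hp2 hpd, Nat.mul_div_cancel _ (by omega)]
  have e1 : (M b S (1 / ((b : ℝ) + 1)) n : ℝ) ≤ count b S n + ((b + 1 + 1 : ℕ) : ℝ) :=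
    card_le_of_eventually (b + 1)
      (fun p hD hp => ⟨hp.1.odd_of_ne_two (by omega), hp.2.1, (key p hD hp.1).1 hp.2.2⟩) n
  have e2 : (count b S n : ℝ) ≤ M b S (1 / ((b : ℝ) + 1)) n + ((b + 1 + 1 : ℕ) : ℝ) :=
    card_le_of_eventually (b + 1)
      (fun p hD hp => by
        have hpp : p.Prime := Pool.Agent.H473R4.wagstaff_prime_index hb hp.1 hp.2.2
        exact ⟨hpp, hp.2.1, (key p hD hpp).2 hp.2.2⟩) n
  push_cast at e1 e2
  rw [abs_le]
  constructor <;> linarith

/-- the shifts of the pair `(b, -1)` are all `1` -/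
lemma cc_eq {b : ℕ} (hb : 2 ≤ b) (p : ℕ) : Pool.Agent.N176.SH.cc b (-1) p = 1 := by
  unfold Pool.Agent.N176.SH.cc
  rw [if_neg (by norm_num)]
  have hb2 : (2 : ℝ) ≤ b := by exact_mod_cast hb
  have h : ⌊((|(-1 : ℤ)| : ℤ) : ℝ) ^ p / ((b : ℝ) - ((-1 : ℤ) : ℝ))⌋ = 0 := by
    rw [Int.floor_eq_zero_iff]
    simp only [abs_neg, abs_one, Int.cast_one, one_pow, Int.cast_neg, sub_neg_eq_add]
    constructor
    · positivity
    · rw [div_lt_one (by linarith)]
      linarith
  simpa using h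

/-- the counting function of the library -/
lemma MB_eq {b : ℕ} (hb : 2 ≤ b) (S : Set ℕ) {β : ℝ} (hβ : 0 < β) (n : ℕ) :
    Pool.Agent.N176.SH.MB (Pool.Agent.N176.SH.cc b (-1)) b S β n = M b S β n := by
  classical
  unfold Pool.Agent.N176.SH.MB M
  have key : ∀ p : ℕ, Pool.Agent.H305R2.roughPart p (Pool.Agent.N176.SH.sh
      (Pool.Agent.N176.SH.cc b (-1)) p (Pool.Agent.N176.GP.NB b β p)) = W b β p := by
    intro p
    have h1 : 1 ≤ ⌈β * (b : ℝ) ^ p⌉₊ :=
      Nat.one_le_iff_ne_zero.2 (Nat.ceil_pos.2 (by positivity)).ne'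
    have h2 : Pool.Agent.N176.SH.sh (Pool.Agent.N176.SH.cc b (-1)) p
        (Pool.Agent.N176.GP.NB b β p) = ⌈β * (b : ℝ) ^ p⌉₊ := by
      unfold Pool.Agent.N176.SH.sh Pool.Agent.N176.GP.NB
      rw [cc_eq hb p]
      omega
    rw [h2]
    rfl
  simp only [key]

/-- The special values; the window law and the law of the iterated logarithm for all bases at once;
the same for the exponents in an arbitrary set of primes of infinite weight. -/
theorem result :
    (∀ b : ℕ, 2 ≤ b → ∀ p : ℕ, p.Prime → p ≠ 2 → ¬ p ∣ b + 1 →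
      W b (1 / ((b : ℝ) + 1)) p * (b + 1) = b ^ p + 1) ∧
    (∀ b : ℕ, 2 ≤ b → ∀ (S : Set ℕ) (n : ℕ),
      |(M b S (1 / ((b : ℝ) + 1)) n : ℝ) - count b S n| ≤ (b : ℝ) + 2) ∧
    (∃ C : ℕ → ℝ, ∀ᵐ β : ℝ, 0 < β → ∀ b : ℕ, 2 ≤ b →
      (∀ᶠ n : ℕ in atTop, ∀ n' ≥ n,
        |((M b Set.univ β n' : ℝ) - M b Set.univ β n) - κ b * Real.log ((n' : ℝ) / n)| ≤
          C b * (√(Real.log ((n' : ℝ) / n) * Real.log (Real.log n')) + Real.log (Real.log n'))) ∧
      (∀ᶠ n : ℕ in atTop, |(M b Set.univ β n : ℝ) - κ b * Real.log n| ≤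
        C b * √(Real.log n * Real.log (Real.log (Real.log n))))) ∧
    (∃ C : ℕ → ℝ, ∀ S : Set ℕ, Tendsto (fun n => V S n) atTop atTop →
      ∀ᵐ β : ℝ, 0 < β → ∀ b : ℕ, 2 ≤ b →
      (∀ᶠ n : ℕ in atTop, ∀ n' ≥ n,
        |((M b S β n' : ℝ) - M b S β n) - κ b * (V S n' - V S n)| ≤
          C b * (√((V S n' - V S n) * Real.log (V S n')) + Real.log (V S n'))) ∧
      (∀ᶠ n : ℕ in atTop, |(M b S β n : ℝ) - κ b * V S n| ≤
        C b * √(V S n * Real.log (Real.log (V S n))))) := by
  classical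
  have eV : ∀ S n, Pool.Agent.N176.OW.VS S n = V S n := fun S n => rfl
  have ek : ∀ b, Pool.Agent.N176.OW.kap b = κ b := fun b => rfl
  have hOK : ∀ b : ℕ, 2 ≤ b → ∃ Z : ℕ, Pool.Agent.N176.SH.Ok b Z (Pool.Agent.N176.SH.cc b (-1)) :=
    fun b hb => Pool.Agent.N372.SH.okp b (-1) (by norm_num) (by
      rw [abs_neg, abs_one]
      omega)
  refine ⟨fun b hb p hp hp2 hpd => special hb hp hp2 hpd, fun b hb S n => count_close hb S n, ?_, ?_⟩
  · have hW : ∀ b : ℕ, 2 ≤ b → ∃ C : ℝ, 0 < C ∧ ∀ᵐ β : ℝ, 0 < β → ∀ᶠ n : ℕ in atTop, ∀ n' ≥ n,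
        |((M b Set.univ β n' : ℝ) - M b Set.univ β n) - κ b * Real.log ((n' : ℝ) / n)| ≤
          C * (√(Real.log ((n' : ℝ) / n) * Real.log (Real.log n')) + Real.log (Real.log n')) := by
      intro b hb
      obtain ⟨Z, hOk⟩ := hOK b hb
      obtain ⟨C, hC, h⟩ := Pool.Agent.N176.SH.win_univ Pool.Agent.N176.SH.All.win' hOk
      refine ⟨C, hC, ?_⟩
      filter_upwards [h] with β h hβ
      have h' := h hβ
      simp only [MB_eq hb Set.univ hβ, ek] at h'
      exact h'
    have hL : ∀ b : ℕ, 2 ≤ b → ∃ C : ℝ, 0 < C ∧ ∀ᵐ β : ℝ, 0 < β → ∀ᶠ n : ℕ in atTop,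
        |(M b Set.univ β n : ℝ) - κ b * Real.log n| ≤
          C * √(Real.log n * Real.log (Real.log (Real.log n))) := by
      intro b hb
      obtain ⟨Z, hOk⟩ := hOK b hb
      obtain ⟨C, hC, h⟩ := Pool.Agent.N176.SH.lil_univ Pool.Agent.N176.SH.All.lil' hOk
      refine ⟨C, hC, ?_⟩
      filter_upwards [h] with β h hβ
      have h' := h hβ
      simp only [MB_eq hb Set.univ hβ, ek] at h'
      exact h'
    choose C1 hC1 h1 using hW
    choose C2 hC2 h2 using hL
    refine ⟨fun a => if h : 2 ≤ a then max (C1 a h) (C2 a h) else 0, ?_⟩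
    have h1' : ∀ᵐ β : ℝ, ∀ a : ℕ, ∀ ha : 2 ≤ a, 0 < β → ∀ᶠ n : ℕ in atTop, ∀ n' ≥ n,
        |((M a Set.univ β n' : ℝ) - M a Set.univ β n) - κ a * Real.log ((n' : ℝ) / n)| ≤
          C1 a ha * (√(Real.log ((n' : ℝ) / n) * Real.log (Real.log n')) +
            Real.log (Real.log n')) := by
      rw [ae_all_iff]
      intro a
      rw [ae_all_iff]
      intro ha
      exact h1 a ha
    have h2' : ∀ᵐ β : ℝ, ∀ a : ℕ, ∀ ha : 2 ≤ a, 0 < β → ∀ᶠ n : ℕ in atTop,
        |(M a Set.univ β n : ℝ) - κ a * Real.log n| ≤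
          C2 a ha * √(Real.log n * Real.log (Real.log (Real.log n))) := by
      rw [ae_all_iff]
      intro a
      rw [ae_all_iff]
      intro ha
      exact h2 a ha
    filter_upwards [h1', h2'] with β h1 h2 hβ a ha
    rw [dif_pos ha]
    constructor
    · filter_upwards [h1 a ha hβ, eventually_ge_atTop 16] with n hn hn16 n' hnn'
      refine (hn n' hnn').trans (mul_le_mul_of_nonneg_right (le_max_left _ _) ?_)
      have := Pool.Agent.N176.SH.loglog_nonneg hn16 hnn'
      positivity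
    · filter_upwards [h2 a ha hβ] with n hn
      exact hn.trans (mul_le_mul_of_nonneg_right (le_max_right _ _) (Real.sqrt_nonneg _))
  · have hW : ∀ b : ℕ, 2 ≤ b → ∃ C : ℝ, 0 < C ∧ ∀ S : Set ℕ, Tendsto (fun n => V S n) atTop atTop →
        ∀ᵐ β : ℝ, 0 < β → ∀ᶠ n : ℕ in atTop, ∀ n' ≥ n,
        |((M b S β n' : ℝ) - M b S β n) - κ b * (V S n' - V S n)| ≤
          C * (√((V S n' - V S n) * Real.log (V S n')) + Real.log (V S n')) := by
      intro b hb
      obtain ⟨Z, hOk⟩ := hOK b hb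
      obtain ⟨C, hC, h⟩ := Pool.Agent.N176.SH.All.win' b Z _ hOk
      refine ⟨C, hC, fun S hS => ?_⟩
      filter_upwards [h S hS] with β h hβ
      have h' := h hβ
      simp only [MB_eq hb S hβ, ek, eV] at h'
      exact h'
    have hL : ∀ b : ℕ, 2 ≤ b → ∃ C : ℝ, 0 < C ∧ ∀ S : Set ℕ, Tendsto (fun n => V S n) atTop atTop →
        ∀ᵐ β : ℝ, 0 < β → ∀ᶠ n : ℕ in atTop,
        |(M b S β n : ℝ) - κ b * V S n| ≤ C * √(V S n * Real.log (Real.log (V S n))) := by
      intro b hb
      obtain ⟨Z, hOk⟩ := hOK b hb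
      obtain ⟨C, hC, h⟩ := Pool.Agent.N176.SH.All.lil' b Z _ hOk
      refine ⟨C, hC, fun S hS => ?_⟩
      filter_upwards [h S hS] with β h hβ
      have h' := h hβ
      simp only [MB_eq hb S hβ, ek, eV] at h'
      exact h'
    choose C1 hC1 h1 using hW
    choose C2 hC2 h2 using hL
    refine ⟨fun a => if h : 2 ≤ a then max (C1 a h) (C2 a h) else 0, fun S hS => ?_⟩
    have h1' : ∀ᵐ β : ℝ, ∀ a : ℕ, ∀ ha : 2 ≤ a, 0 < β → ∀ᶠ n : ℕ in atTop, ∀ n' ≥ n,
        |((M a S β n' : ℝ) - M a S β n) - κ a * (V S n' - V S n)| ≤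
          C1 a ha * (√((V S n' - V S n) * Real.log (V S n')) + Real.log (V S n')) := by
      rw [ae_all_iff]
      intro a
      rw [ae_all_iff]
      intro ha
      exact h1 a ha S hS
    have h2' : ∀ᵐ β : ℝ, ∀ a : ℕ, ∀ ha : 2 ≤ a, 0 < β → ∀ᶠ n : ℕ in atTop,
        |(M a S β n : ℝ) - κ a * V S n| ≤
          C2 a ha * √(V S n * Real.log (Real.log (V S n))) := by
      rw [ae_all_iff]
      intro a
      rw [ae_all_iff]
      intro ha
      exact h2 a ha S hS
    filter_upwards [h1', h2'] with β h1 h2 hβ a ha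
    rw [dif_pos ha]
    constructor
    · filter_upwards [h1 a ha hβ, hS.eventually_ge_atTop 1] with n hn hn1 n' hnn'
      refine (hn n' hnn').trans (mul_le_mul_of_nonneg_right (le_max_left _ _) ?_)
      have h3 : V S n ≤ V S n' := Pool.Agent.N176.OW.VS_mono S hnn'
      have := Real.log_nonneg (hn1.trans h3)
      positivity
    · filter_upwards [h2 a ha hβ] with n hn
      exact hn.trans (mul_le_mul_of_nonneg_right (le_max_right _ _) (Real.sqrt_nonneg _))

end Pool.Agent.Results.MP_ce8d0c_nt.WindowsEveryBase
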